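import Pool.Agent.H4.TD.Core

namespace Pool.Agent.H4.TD

open SimpleGraph

variable {V : Type*}

/-- Case B2: a further point `q` on `l1`. -/
theorem caseB2 {G : SimpleGraph V} {P : Set V}
    {p p1 p2 p3 q l1 l2 l3 m12 m13 n2 n3 : V}
    (hp : p ∈ P) (hq : q ∈ P) (hp1 : p1 ∈ P) (hp2 : p2 ∈ P) (hp3 : p3 ∈ P)
    (hl1 : l1 ∉ P) (hl2 : l2 ∉ P) (hl3 : l3 ∉ P)
    (hm12 : m12 ∉ P) (hm13 : m13 ∉ P) (hn2 : n2 ∉ P) (hn3 : n3 ∉ P)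
    (hpq : p ≠ q) (hq1 : q ≠ p1)
    (npp1 : p ≠ p1) (npp2 : p ≠ p2) (npp3 : p ≠ p3)
    (a1 : G.Adj p l1) (a2 : G.Adj p l2) (a3 : G.Adj p l3)
    (b1 : G.Adj p1 l1) (b2 : G.Adj p2 l2) (b3 : G.Adj p3 l3)
    (n12 : ¬ G.Adj p1 l2) (n13 : ¬ G.Adj p1 l3) (n21 : ¬ G.Adj p2 l1) (n23 : ¬ G.Adj p2 l3)
    (n31 : ¬ G.Adj p3 l1) (n32 : ¬ G.Adj p3 l2)
    (r12 : G.Adj p1 m12) (s12 : G.Adj p2 m12) (t12 : ¬ G.Adj p3 m12)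
    (r13 : G.Adj p1 m13) (s13 : G.Adj p3 m13) (t13 : ¬ G.Adj p2 m13)
    (u1 : G.Adj q l1) (u2 : G.Adj q n2) (v2 : G.Adj p2 n2)
    (u3 : G.Adj q n3) (v3 : G.Adj p3 n3) : HasK33Minor G := by
  have hq2 : q ≠ p2 := by rintro rfl; exact n21 u1
  have hq3 : q ≠ p3 := by rintro rfl; exact n31 u1
  refine mk (x0 := p) (x1 := p1) (x2 := q) (y0 := p2) (y1 := p3) (y2 := l1)
    (X0 := {p}) (X1 := {p1})
    (X2 := {v | v = q ∨ ((v = n2 ∨ v = n3) ∧ v ≠ l2 ∧ v ≠ l3 ∧ v ≠ m12 ∧ v ≠ m13)})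
    (Y0 := {v | v = p2 ∨ v = l2 ∨ v = m12}) (Y1 := {v | v = p3 ∨ v = l3 ∨ v = m13})
    (Y2 := {v | v = l1})
    ?_ ?_ ?_ ?_ ?_ ?_ ?_ ?_ ?_ ?_ ?_ ?_ ?_ ?_ ?_ ?_ ?_ ?_ ?_ ?_
  all_goals try simp only [Star, Set.mem_singleton_iff, Set.mem_ofPred_eq, exists_eq_left]
  · grind
  · grind
  · grind
  · grind
  · grind
  · grind
  · grind
  · grind
  · grind
  · grind
  · grind
  · exact ⟨l2, by simp, a2⟩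
  · exact ⟨l3, by simp, a3⟩
  · exact a1
  · exact ⟨m12, by simp, r12⟩
  · exact ⟨m13, by simp, r13⟩
  · exact b1
  · by_cases h : n2 = l2
    · exact ⟨q, Or.inl rfl, l2, by simp, h ▸ u2⟩
    · by_cases h' : n2 = m12
      · exact ⟨q, Or.inl rfl, m12, by simp, h' ▸ u2⟩
      · exact ⟨n2, Or.inr ⟨Or.inl rfl, h, by grind, h', by grind⟩, p2, by simp, v2.symm⟩
  · by_cases h : n3 = l3
    · exact ⟨q, Or.inl rfl, l3, by simp, h ▸ u3⟩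
    · by_cases h' : n3 = m13
      · exact ⟨q, Or.inl rfl, m13, by simp, h' ▸ u3⟩
      · exact ⟨n3, Or.inr ⟨Or.inr rfl, by grind, h, by grind, h'⟩, p3, by simp, v3.symm⟩
  · exact ⟨q, Or.inl rfl, u1⟩

/-- Case B3a: a further point `q` on a line `l4` through `p`, and new lines `n1`, `n2`. -/
theorem caseB3a {G : SimpleGraph V} {P : Set V}
    {p p1 p2 p3 q l4 m12 m13 m23 n1 n2 : V}
    (hp : p ∈ P) (hq : q ∈ P) (hp1 : p1 ∈ P) (hp2 : p2 ∈ P) (hp3 : p3 ∈ P)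
    (hl4 : l4 ∉ P) (hm12 : m12 ∉ P) (hm13 : m13 ∉ P) (hm23 : m23 ∉ P)
    (hn1 : n1 ∉ P) (hn2 : n2 ∉ P)
    (hpq : p ≠ q) (hq1 : q ≠ p1) (hq2 : q ≠ p2) (hq3 : q ≠ p3)
    (npp1 : p ≠ p1) (npp2 : p ≠ p2) (npp3 : p ≠ p3)
    (a4 : G.Adj p l4) (k1 : ¬ G.Adj p1 l4) (k2 : ¬ G.Adj p2 l4) (k3 : ¬ G.Adj p3 l4)
    (r12 : G.Adj p1 m12) (s12 : G.Adj p2 m12) (t12 : ¬ G.Adj p3 m12)
    (r13 : G.Adj p1 m13) (s13 : G.Adj p3 m13) (t13 : ¬ G.Adj p2 m13)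
    (r23 : G.Adj p2 m23) (s23 : G.Adj p3 m23) (t23 : ¬ G.Adj p1 m23)
    (w12 : G.Adj p m12) (w13 : G.Adj p m13) (w23 : G.Adj p m23)
    (u4 : G.Adj q l4) (u1 : G.Adj q n1) (v1 : G.Adj p1 n1)
    (u2 : G.Adj q n2) (v2 : G.Adj p2 n2)
    (z1 : n1 ≠ m12) (z1' : n1 ≠ m13) (z1'' : n1 ≠ m23)
    (z2 : n2 ≠ m12) (z2' : n2 ≠ m13) (z2'' : n2 ≠ m23) :
    HasK33Minor G := by
  refine mk (x0 := p) (x1 := p1) (x2 := p2) (y0 := q) (y1 := m12) (y2 := p3)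
    (X0 := {p}) (X1 := {p1}) (X2 := {p2})
    (Y0 := {v | v = q ∨ v = l4 ∨ v = n1 ∨ v = n2}) (Y1 := {v | v = m12})
    (Y2 := {v | v = p3 ∨ v = m13 ∨ v = m23})
    ?_ ?_ ?_ ?_ ?_ ?_ ?_ ?_ ?_ ?_ ?_ ?_ ?_ ?_ ?_ ?_ ?_ ?_ ?_ ?_
  all_goals try simp only [Star, Set.mem_singleton_iff, Set.mem_ofPred_eq, exists_eq_left]
  · grind
  · grind
  · grind
  · grind
  · grind
  · grind
  · grind
  · grind
  · grind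
  · grind
  · grind
  · exact ⟨l4, by simp, a4⟩
  · exact w12
  · exact ⟨m13, by simp, w13⟩
  · exact ⟨n1, by simp, v1⟩
  · exact r12
  · exact ⟨m13, by simp, r13⟩
  · exact ⟨n2, by simp, v2⟩
  · exact s12
  · exact ⟨m23, by simp, r23⟩

/-- Case B3b: `q` on `l4`, `q` on `m12`, and a new line `n3` through `q` and `p3`. -/
theorem caseB3b {G : SimpleGraph V} {P : Set V}
    {p p1 p2 p3 q l4 m12 m13 m23 n3 : V}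
    (hp : p ∈ P) (hq : q ∈ P) (hp1 : p1 ∈ P) (hp2 : p2 ∈ P) (hp3 : p3 ∈ P)
    (hl4 : l4 ∉ P) (hm12 : m12 ∉ P) (hm13 : m13 ∉ P) (hm23 : m23 ∉ P)
    (hn3 : n3 ∉ P)
    (hpq : p ≠ q) (hq1 : q ≠ p1) (hq2 : q ≠ p2) (hq3 : q ≠ p3)
    (npp1 : p ≠ p1) (npp2 : p ≠ p2) (npp3 : p ≠ p3)
    (a4 : G.Adj p l4) (k1 : ¬ G.Adj p1 l4) (k2 : ¬ G.Adj p2 l4) (k3 : ¬ G.Adj p3 l4)
    (r12 : G.Adj p1 m12) (s12 : G.Adj p2 m12) (t12 : ¬ G.Adj p3 m12)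
    (r13 : G.Adj p1 m13) (s13 : G.Adj p3 m13) (t13 : ¬ G.Adj p2 m13)
    (r23 : G.Adj p2 m23) (s23 : G.Adj p3 m23) (t23 : ¬ G.Adj p1 m23)
    (w12 : G.Adj p m12) (w13 : G.Adj p m13) (w23 : G.Adj p m23)
    (u4 : G.Adj q l4) (u1 : G.Adj q m12)
    (u3 : G.Adj q n3) (v3 : G.Adj p3 n3)
    (z1' : n3 ≠ m13) (z1'' : n3 ≠ m23) :
    HasK33Minor G := by
  refine mk (x0 := p) (x1 := m12) (x2 := p3) (y0 := p1) (y1 := p2) (y2 := q)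
    (X0 := {p}) (X1 := {m12}) (X2 := {p3})
    (Y0 := {v | v = p1 ∨ v = m13}) (Y1 := {v | v = p2 ∨ v = m23})
    (Y2 := {v | v = q ∨ v = n3 ∨ v = l4})
    ?_ ?_ ?_ ?_ ?_ ?_ ?_ ?_ ?_ ?_ ?_ ?_ ?_ ?_ ?_ ?_ ?_ ?_ ?_ ?_
  all_goals try simp only [Star, Set.mem_singleton_iff, Set.mem_ofPred_eq, exists_eq_left]
  · grind
  · grind
  · grind
  · grind
  · grind
  · grind
  · grind
  · grind
  · grind
  · grind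
  · grind
  · exact ⟨m13, by simp, w13⟩
  · exact ⟨m23, by simp, w23⟩
  · exact ⟨l4, by simp, a4⟩
  · exact ⟨p1, by simp, r12.symm⟩
  · exact ⟨p2, by simp, s12.symm⟩
  · exact ⟨q, by simp, u1.symm⟩
  · exact ⟨m13, by simp, s13⟩
  · exact ⟨m23, by simp, s23⟩
  · exact ⟨n3, by simp, v3⟩

/-- Case B3c: `q` on `l4`, `q` on `m12` and on `m13`. -/
theorem caseB3c {G : SimpleGraph V} {P : Set V}
    {p p1 p2 p3 q l1 l4 m12 m13 m23 : V}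
    (hp : p ∈ P) (hq : q ∈ P) (hp1 : p1 ∈ P) (hp2 : p2 ∈ P) (hp3 : p3 ∈ P)
    (hl1 : l1 ∉ P) (hl4 : l4 ∉ P) (hm12 : m12 ∉ P) (hm13 : m13 ∉ P) (hm23 : m23 ∉ P)
    (hpq : p ≠ q) (hq1 : q ≠ p1) (hq2 : q ≠ p2) (hq3 : q ≠ p3)
    (npp1 : p ≠ p1) (npp2 : p ≠ p2) (npp3 : p ≠ p3)
    (a1 : G.Adj p l1) (b1 : G.Adj p1 l1) (n21 : ¬ G.Adj p2 l1) (n31 : ¬ G.Adj p3 l1)
    (a4 : G.Adj p l4) (k1 : ¬ G.Adj p1 l4) (k2 : ¬ G.Adj p2 l4) (k3 : ¬ G.Adj p3 l4)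
    (r12 : G.Adj p1 m12) (s12 : G.Adj p2 m12) (t12 : ¬ G.Adj p3 m12)
    (r13 : G.Adj p1 m13) (s13 : G.Adj p3 m13) (t13 : ¬ G.Adj p2 m13)
    (r23 : G.Adj p2 m23) (s23 : G.Adj p3 m23) (t23 : ¬ G.Adj p1 m23)
    (w12 : G.Adj p m12) (w13 : G.Adj p m13) (w23 : G.Adj p m23)
    (u4 : G.Adj q l4) (u1 : G.Adj q m12) (u2 : G.Adj q m13) :
    HasK33Minor G := by
  refine mk (x0 := p) (x1 := m12) (x2 := m13) (y0 := q) (y1 := p1) (y2 := m23)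
    (X0 := {p}) (X1 := {m12}) (X2 := {m13})
    (Y0 := {v | v = q ∨ v = l4}) (Y1 := {v | v = p1 ∨ v = l1})
    (Y2 := {v | v = m23 ∨ v = p2 ∨ v = p3})
    ?_ ?_ ?_ ?_ ?_ ?_ ?_ ?_ ?_ ?_ ?_ ?_ ?_ ?_ ?_ ?_ ?_ ?_ ?_ ?_
  all_goals try simp only [Star, Set.mem_singleton_iff, Set.mem_ofPred_eq, exists_eq_left]
  · grind
  · grind
  · grind
  · grind
  · grind
  · have := r23.symm
    have := s23.symm
    grind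
  · grind
  · grind
  · grind
  · grind
  · grind
  · exact ⟨l4, by simp, a4⟩
  · exact ⟨l1, by simp, a1⟩
  · exact ⟨m23, by simp, w23⟩
  · exact ⟨q, by simp, u1.symm⟩
  · exact ⟨p1, by simp, r12.symm⟩
  · exact ⟨p2, by simp, s12.symm⟩
  · exact ⟨q, by simp, u2.symm⟩
  · exact ⟨p1, by simp, r13.symm⟩
  · exact ⟨p3, by simp, s13.symm⟩

end Pool.Agent.H4.TD
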