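import Mathlib

namespace Pool.Agent.H4.TD

open SimpleGraph

variable {V : Type*}

/-- `G` has a `K_{3,3}` minor: six pairwise disjoint connected branch sets, each `X i` joined by an
edge to each `Y j`. -/
def HasK33Minor (G : SimpleGraph V) : Prop :=
  ∃ X Y : Fin 3 → Set V,
    (∀ i, (G.induce (X i)).Connected) ∧ (∀ j, (G.induce (Y j)).Connected) ∧
    (∀ i j, i ≠ j → Disjoint (X i) (X j)) ∧ (∀ i j, i ≠ j → Disjoint (Y i) (Y j)) ∧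
    (∀ i j, Disjoint (X i) (Y j)) ∧ (∀ i j, ∃ x ∈ X i, ∃ y ∈ Y j, G.Adj x y)

def Star (G : SimpleGraph V) (z : V) (S : Set V) : Prop :=
  z ∈ S ∧ ∀ s ∈ S, s = z ∨ G.Adj z s

theorem Star.connected {G : SimpleGraph V} {z : V} {S : Set V} (h : Star G z S) :
    (G.induce S).Connected := by
  rw [SimpleGraph.connected_iff_exists_forall_reachable]
  refine ⟨⟨z, h.1⟩, fun w => ?_⟩
  rcases h.2 w.1 w.2 with e | e
  · have : w = ⟨z, h.1⟩ := Subtype.ext e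
    rw [this]
  · exact SimpleGraph.Adj.reachable (by simpa using e)

theorem mk {G : SimpleGraph V} {x0 x1 x2 y0 y1 y2 : V} {X0 X1 X2 Y0 Y1 Y2 : Set V}
    (hx0 : Star G x0 X0) (hx1 : Star G x1 X1) (hx2 : Star G x2 X2)
    (hy0 : Star G y0 Y0) (hy1 : Star G y1 Y1) (hy2 : Star G y2 Y2)
    (d1 : ∀ v, v ∈ X0 → v ∉ X1 ∧ v ∉ X2 ∧ v ∉ Y0 ∧ v ∉ Y1 ∧ v ∉ Y2)
    (d2 : ∀ v, v ∈ X1 → v ∉ X2 ∧ v ∉ Y0 ∧ v ∉ Y1 ∧ v ∉ Y2)
    (d3 : ∀ v, v ∈ X2 → v ∉ Y0 ∧ v ∉ Y1 ∧ v ∉ Y2)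
    (d4 : ∀ v, v ∈ Y0 → v ∉ Y1 ∧ v ∉ Y2)
    (d5 : ∀ v, v ∈ Y1 → v ∉ Y2)
    (e00 : ∃ x ∈ X0, ∃ y ∈ Y0, G.Adj x y) (e01 : ∃ x ∈ X0, ∃ y ∈ Y1, G.Adj x y)
    (e02 : ∃ x ∈ X0, ∃ y ∈ Y2, G.Adj x y)
    (e10 : ∃ x ∈ X1, ∃ y ∈ Y0, G.Adj x y) (e11 : ∃ x ∈ X1, ∃ y ∈ Y1, G.Adj x y)
    (e12 : ∃ x ∈ X1, ∃ y ∈ Y2, G.Adj x y)
    (e20 : ∃ x ∈ X2, ∃ y ∈ Y0, G.Adj x y) (e21 : ∃ x ∈ X2, ∃ y ∈ Y1, G.Adj x y)
    (e22 : ∃ x ∈ X2, ∃ y ∈ Y2, G.Adj x y) : HasK33Minor G := by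
  have D : ∀ {A B : Set V}, (∀ v, v ∈ A → v ∉ B) → Disjoint A B := fun h =>
    Set.disjoint_left.mpr (fun {v} => h v)
  refine ⟨![X0, X1, X2], ![Y0, Y1, Y2], ?_, ?_, ?_, ?_, ?_, ?_⟩
  · intro i; fin_cases i
    · exact hx0.connected
    · exact hx1.connected
    · exact hx2.connected
  · intro i; fin_cases i
    · exact hy0.connected
    · exact hy1.connected
    · exact hy2.connected
  · intro i j hij
    fin_cases i <;> fin_cases j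
    · exact absurd rfl hij
    · exact D fun v hv => (d1 v hv).1
    · exact D fun v hv => (d1 v hv).2.1
    · exact (D fun v hv => (d1 v hv).1).symm
    · exact absurd rfl hij
    · exact D fun v hv => (d2 v hv).1
    · exact (D fun v hv => (d1 v hv).2.1).symm
    · exact (D fun v hv => (d2 v hv).1).symm
    · exact absurd rfl hij
  · intro i j hij
    fin_cases i <;> fin_cases j
    · exact absurd rfl hij
    · exact D fun v hv => (d4 v hv).1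
    · exact D fun v hv => (d4 v hv).2
    · exact (D fun v hv => (d4 v hv).1).symm
    · exact absurd rfl hij
    · exact D fun v hv => d5 v hv
    · exact (D fun v hv => (d4 v hv).2).symm
    · exact (D fun v hv => d5 v hv).symm
    · exact absurd rfl hij
  · intro i j
    fin_cases i <;> fin_cases j
    · exact D fun v hv => (d1 v hv).2.2.1
    · exact D fun v hv => (d1 v hv).2.2.2.1
    · exact D fun v hv => (d1 v hv).2.2.2.2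
    · exact D fun v hv => (d2 v hv).2.1
    · exact D fun v hv => (d2 v hv).2.2.1
    · exact D fun v hv => (d2 v hv).2.2.2
    · exact D fun v hv => (d3 v hv).1
    · exact D fun v hv => (d3 v hv).2.1
    · exact D fun v hv => (d3 v hv).2.2
  · intro i j
    fin_cases i <;> fin_cases j
    · exact e00
    · exact e01
    · exact e02
    · exact e10
    · exact e11
    · exact e12
    · exact e20
    · exact e21
    · exact e22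

/-- Case A. -/
theorem caseA {G : SimpleGraph V} {P : Set V}
    {p q p1 p2 p3 c l1 l2 l3 m1 m2 m3 : V}
    (hp : p ∈ P) (hq : q ∈ P) (hp1 : p1 ∈ P) (hp2 : p2 ∈ P) (hp3 : p3 ∈ P)
    (hc : c ∉ P) (hl1 : l1 ∉ P) (hl2 : l2 ∉ P) (hl3 : l3 ∉ P)
    (hm1 : m1 ∉ P) (hm2 : m2 ∉ P) (hm3 : m3 ∉ P)
    (hpq : p ≠ q) (npp1 : p ≠ p1) (npp2 : p ≠ p2) (npp3 : p ≠ p3)
    (a1 : G.Adj p l1) (a2 : G.Adj p l2) (a3 : G.Adj p l3)
    (b1 : G.Adj p1 l1) (b2 : G.Adj p2 l2) (b3 : G.Adj p3 l3)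
    (n12 : ¬ G.Adj p1 l2) (n13 : ¬ G.Adj p1 l3) (n21 : ¬ G.Adj p2 l1) (n23 : ¬ G.Adj p2 l3)
    (n31 : ¬ G.Adj p3 l1) (n32 : ¬ G.Adj p3 l2)
    (c1 : G.Adj p1 c) (c2 : G.Adj p2 c) (c3 : G.Adj p3 c) (nq : ¬ G.Adj q c)
    (d1 : G.Adj q m1) (e1 : G.Adj p1 m1) (d2 : G.Adj q m2) (e2 : G.Adj p2 m2)
    (d3 : G.Adj q m3) (e3 : G.Adj p3 m3) : HasK33Minor G := by
  refine mk (x0 := p) (x1 := c) (x2 := q) (y0 := p1) (y1 := p2) (y2 := p3)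
    (X0 := {p}) (X1 := {c})
    (X2 := {v | v = q ∨ ((v = m1 ∨ v = m2 ∨ v = m3) ∧ v ≠ l1 ∧ v ≠ l2 ∧ v ≠ l3)})
    (Y0 := {v | v = p1 ∨ v = l1}) (Y1 := {v | v = p2 ∨ v = l2}) (Y2 := {v | v = p3 ∨ v = l3})
    ?_ ?_ ?_ ?_ ?_ ?_ ?_ ?_ ?_ ?_ ?_ ?_ ?_ ?_ ?_ ?_ ?_ ?_ ?_ ?_
  all_goals try simp only [Star, Set.mem_singleton_iff, Set.mem_ofPred_eq, exists_eq_left]
  · grind
  · grind
  · grind
  · grind
  · grind
  · grind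
  · grind
  · grind
  · grind
  · grind
  · grind
  · exact ⟨l1, Or.inr rfl, a1⟩
  · exact ⟨l2, Or.inr rfl, a2⟩
  · exact ⟨l3, Or.inr rfl, a3⟩
  · exact ⟨p1, Or.inl rfl, c1.symm⟩
  · exact ⟨p2, Or.inl rfl, c2.symm⟩
  · exact ⟨p3, Or.inl rfl, c3.symm⟩
  · by_cases h : m1 = l1
    · exact ⟨q, Or.inl rfl, l1, Or.inr rfl, h ▸ d1⟩
    · exact ⟨m1, Or.inr ⟨Or.inl rfl, h, by grind, by grind⟩, p1, Or.inl rfl, e1.symm⟩
  · by_cases h : m2 = l2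
    · exact ⟨q, Or.inl rfl, l2, Or.inr rfl, h ▸ d2⟩
    · exact ⟨m2, Or.inr ⟨Or.inr (Or.inl rfl), by grind, h, by grind⟩, p2, Or.inl rfl, e2.symm⟩
  · by_cases h : m3 = l3
    · exact ⟨q, Or.inl rfl, l3, Or.inr rfl, h ▸ d3⟩
    · exact ⟨m3, Or.inr ⟨Or.inr (Or.inr rfl), by grind, by grind, h⟩, p3, Or.inl rfl, e3.symm⟩

/-- Case B1: `l1` and `m23` share a further point. -/
theorem caseB1 {G : SimpleGraph V} {P : Set V}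
    {p p1 p2 p3 x l1 l2 l3 m12 m13 m23 : V}
    (hp : p ∈ P) (hx : x ∈ P) (hp1 : p1 ∈ P) (hp2 : p2 ∈ P) (hp3 : p3 ∈ P)
    (hl1 : l1 ∉ P) (hl2 : l2 ∉ P) (hl3 : l3 ∉ P)
    (hm12 : m12 ∉ P) (hm13 : m13 ∉ P) (hm23 : m23 ∉ P)
    (hpx : p ≠ x) (npp1 : p ≠ p1) (npp2 : p ≠ p2) (npp3 : p ≠ p3)
    (a1 : G.Adj p l1) (a2 : G.Adj p l2) (a3 : G.Adj p l3)
    (b1 : G.Adj p1 l1) (b2 : G.Adj p2 l2) (b3 : G.Adj p3 l3)
    (n12 : ¬ G.Adj p1 l2) (n13 : ¬ G.Adj p1 l3) (n21 : ¬ G.Adj p2 l1) (n23 : ¬ G.Adj p2 l3)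
    (n31 : ¬ G.Adj p3 l1) (n32 : ¬ G.Adj p3 l2)
    (r12 : G.Adj p1 m12) (s12 : G.Adj p2 m12) (t12 : ¬ G.Adj p3 m12)
    (r13 : G.Adj p1 m13) (s13 : G.Adj p3 m13) (t13 : ¬ G.Adj p2 m13)
    (r23 : G.Adj p2 m23) (s23 : G.Adj p3 m23) (t23 : ¬ G.Adj p1 m23)
    (u1 : G.Adj x l1) (u2 : G.Adj x m23) : HasK33Minor G := by
  have hx1 : x ≠ p1 := by rintro rfl; exact t23 u2
  have hx2 : x ≠ p2 := by rintro rfl; exact n21 u1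
  have hx3 : x ≠ p3 := by rintro rfl; exact n31 u1
  refine mk (x0 := p) (x1 := p1) (x2 := m23) (y0 := p2) (y1 := p3) (y2 := l1)
    (X0 := {p}) (X1 := {p1}) (X2 := {m23})
    (Y0 := {v | v = p2 ∨ v = l2 ∨ v = m12}) (Y1 := {v | v = p3 ∨ v = l3 ∨ v = m13})
    (Y2 := {v | v = l1 ∨ v = x})
    ?_ ?_ ?_ ?_ ?_ ?_ ?_ ?_ ?_ ?_ ?_ ?_ ?_ ?_ ?_ ?_ ?_ ?_ ?_ ?_
  all_goals try simp only [Star, Set.mem_singleton_iff, Set.mem_ofPred_eq, exists_eq_left]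
  · grind
  · grind
  · grind
  · grind
  · grind
  · have := u1.symm
    grind
  · grind
  · grind
  · grind
  · grind
  · grind
  · exact ⟨l2, by simp, a2⟩
  · exact ⟨l3, by simp, a3⟩
  · exact ⟨l1, by simp, a1⟩
  · exact ⟨m12, by simp, r12⟩
  · exact ⟨m13, by simp, r13⟩
  · exact ⟨l1, by simp, b1⟩
  · exact ⟨p2, by simp, r23.symm⟩
  · exact ⟨p3, by simp, s23.symm⟩
  · exact ⟨x, by simp, u2.symm⟩

end Pool.Agent.H4.TD
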