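import Pool.Agent.H4.TD.CaseB

namespace Pool.Agent.H4.TD

open SimpleGraph

variable {V : Type*}

theorem side [Finite V] {G : SimpleGraph V} {P : Set V}
    (hbip : ∀ u v, G.Adj u v → (u ∈ P ↔ v ∉ P))
    (hnon : P.Nonempty)
    (hdeg : ∀ u, ∃ w, G.Adj u w)
    (hpp : ∀ u ∈ P, ∀ v ∈ P, u ≠ v → ∃ w, G.Adj u w ∧ G.Adj v w)
    (hll : ∀ u, u ∉ P → ∀ v, v ∉ P → u ≠ v → ∃ w, G.Adj u w ∧ G.Adj v w)
    (hK : ¬ HasK33Minor G) :
    ∃ a b, a ∉ P ∧ b ∉ P ∧ ∀ u ∈ P, G.Adj u a ∨ G.Adj u b := by
  classical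
  haveI := Fintype.ofFinite V
  have L : ∀ {u w}, u ∈ P → G.Adj u w → w ∉ P := fun hu h => (hbip _ _ h).1 hu
  have L' : ∀ {u w}, u ∉ P → G.Adj u w → w ∈ P := fun {u w} hu h => by
    by_contra hw
    exact hu ((hbip u w h).2 hw)
  obtain ⟨p, hp⟩ := hnon
  let F : Set (Finset V) := {T | (∀ l ∈ T, G.Adj p l) ∧ ∀ u ∈ P, ∃ l ∈ T, G.Adj u l}
  have hF : F.Nonempty := by
    refine ⟨Finset.univ.filter (fun l => G.Adj p l), ?_, ?_⟩
    · intro l hl
      exact (Finset.mem_filter.mp hl).2
    · intro u hu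
      by_cases h : u = p
      · subst h
        obtain ⟨w, hw⟩ := hdeg u
        exact ⟨w, Finset.mem_filter.mpr ⟨Finset.mem_univ _, hw⟩, hw⟩
      · obtain ⟨w, hw1, hw2⟩ := hpp u hu p hp h
        exact ⟨w, Finset.mem_filter.mpr ⟨Finset.mem_univ _, hw2⟩, hw1⟩
  obtain ⟨T, hT, hmin⟩ := WellFounded.has_min (wellFounded_lt (α := Finset V)) F hF
  have priv : ∀ l ∈ T, ∃ u ∈ P, G.Adj u l ∧ ∀ l' ∈ T, G.Adj u l' → l' = l := by
    intro l hl
    by_contra hcon
    push Not at hcon
    apply hmin (T.erase l) ⟨fun l' hl' => hT.1 l' (Finset.mem_of_mem_erase hl'), fun u hu => ?_⟩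
      (Finset.erase_ssubset hl)
    obtain ⟨l', hl', hul'⟩ := hT.2 u hu
    by_cases h : l' = l
    · subst h
      obtain ⟨l'', hl'', ha, hne⟩ := hcon u hu hul'
      exact ⟨l'', Finset.mem_erase.mpr ⟨hne, hl''⟩, ha⟩
    · exact ⟨l', Finset.mem_erase.mpr ⟨h, hl'⟩, hul'⟩
  rcases Nat.lt_or_ge 2 T.card with h3 | h2
  · obtain ⟨l1, hl1, l2, hl2, l3, hl3, h12, h13, h23⟩ := Finset.two_lt_card.mp h3
    obtain ⟨p1, hp1, b1, q1⟩ := priv l1 hl1
    obtain ⟨p2, hp2, b2, q2⟩ := priv l2 hl2
    obtain ⟨p3, hp3, b3, q3⟩ := priv l3 hl3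
    have n12 : ¬ G.Adj p1 l2 := fun h => h12 (q1 l2 hl2 h).symm
    have n13 : ¬ G.Adj p1 l3 := fun h => h13 (q1 l3 hl3 h).symm
    have n21 : ¬ G.Adj p2 l1 := fun h => h12 (q2 l1 hl1 h)
    have n23 : ¬ G.Adj p2 l3 := fun h => h23 (q2 l3 hl3 h).symm
    have n31 : ¬ G.Adj p3 l1 := fun h => h13 (q3 l1 hl1 h)
    have n32 : ¬ G.Adj p3 l2 := fun h => h23 (q3 l2 hl2 h)
    have a1 : G.Adj p l1 := hT.1 l1 hl1
    have a2 : G.Adj p l2 := hT.1 l2 hl2
    have a3 : G.Adj p l3 := hT.1 l3 hl3
    have npp1 : p ≠ p1 := by rintro rfl; exact n12 a2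
    have npp2 : p ≠ p2 := by rintro rfl; exact n21 a1
    have npp3 : p ≠ p3 := by rintro rfl; exact n31 a1
    have np12 : p1 ≠ p2 := by rintro rfl; exact n12 b2
    have np13 : p1 ≠ p3 := by rintro rfl; exact n13 b3
    have np23 : p2 ≠ p3 := by rintro rfl; exact n23 b3
    have L1 : l1 ∉ P := L hp1 b1
    have L2 : l2 ∉ P := L hp2 b2
    have L3 : l3 ∉ P := L hp3 b3
    by_cases hc : ∃ c, G.Adj p1 c ∧ G.Adj p2 c ∧ G.Adj p3 c
    · obtain ⟨c, c1, c2, c3⟩ := hc
      have Lc : c ∉ P := L hp1 c1
      have key : ∀ q ∈ P, q ≠ p → G.Adj q c := by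
        intro q hq hqp
        by_contra nq
        have hpq : p ≠ q := Ne.symm hqp
        obtain ⟨m1, d1, e1⟩ := hpp q hq p1 hp1 (by rintro rfl; exact nq c1)
        obtain ⟨m2, d2, e2⟩ := hpp q hq p2 hp2 (by rintro rfl; exact nq c2)
        obtain ⟨m3, d3, e3⟩ := hpp q hq p3 hp3 (by rintro rfl; exact nq c3)
        have M1 : m1 ∉ P := L hp1 e1
        have M2 : m2 ∉ P := L hp2 e2
        have M3 : m3 ∉ P := L hp3 e3
        apply hK
        apply caseA (P := P) (p := p) (q := q) (p1 := p1) (p2 := p2) (p3 := p3) (c := c)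
          (l1 := l1) (l2 := l2) (l3 := l3) (m1 := m1) (m2 := m2) (m3 := m3) <;> assumption
      refine ⟨c, l1, Lc, L1, fun u hu => ?_⟩
      by_cases h : u = p
      · right; rw [h]; exact a1
      · left; exact key u hu h
    · push Not at hc
      obtain ⟨m12, r12, s12⟩ := hpp p1 hp1 p2 hp2 np12
      obtain ⟨m13, r13, s13⟩ := hpp p1 hp1 p3 hp3 np13
      obtain ⟨m23, r23, s23⟩ := hpp p2 hp2 p3 hp3 np23
      have t12 : ¬ G.Adj p3 m12 := hc m12 r12 s12
      have t13 : ¬ G.Adj p2 m13 := fun h => hc m13 r13 h s13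
      have t23 : ¬ G.Adj p1 m23 := fun h => hc m23 h r23 s23
      have M12 : m12 ∉ P := L hp1 r12
      have M13 : m13 ∉ P := L hp1 r13
      have M23 : m23 ∉ P := L hp2 r23
      have w23 : G.Adj p m23 := by
        by_contra hcon
        obtain ⟨x, x1, x2⟩ := hll l1 L1 m23 M23 (by rintro rfl; exact t23 b1)
        have x1' := x1.symm
        have x2' := x2.symm
        have hx : x ∈ P := L' L1 x1
        have hpx : p ≠ x := by rintro rfl; exact hcon x2'
        apply hK
        apply caseB1 (P := P) (p := p) (x := x) (p1 := p1) (p2 := p2) (p3 := p3)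
          (l1 := l1) (l2 := l2) (l3 := l3) (m12 := m12) (m13 := m13) (m23 := m23) <;> assumption
      have w13 : G.Adj p m13 := by
        by_contra hcon
        obtain ⟨x, x1, x2⟩ := hll l2 L2 m13 M13 (by rintro rfl; exact t13 b2)
        have x1' := x1.symm
        have x2' := x2.symm
        have hx : x ∈ P := L' L2 x1
        have hpx : p ≠ x := by rintro rfl; exact hcon x2'
        apply hK
        apply caseB1 (P := P) (p := p) (x := x) (p1 := p2) (p2 := p1) (p3 := p3)
          (l1 := l2) (l2 := l1) (l3 := l3) (m12 := m12) (m13 := m23) (m23 := m13) <;> assumption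
      have w12 : G.Adj p m12 := by
        by_contra hcon
        obtain ⟨x, x1, x2⟩ := hll l3 L3 m12 M12 (by rintro rfl; exact t12 b3)
        have x1' := x1.symm
        have x2' := x2.symm
        have hx : x ∈ P := L' L3 x1
        have hpx : p ≠ x := by rintro rfl; exact hcon x2'
        apply hK
        apply caseB1 (P := P) (p := p) (x := x) (p1 := p3) (p2 := p1) (p3 := p2)
          (l1 := l3) (l2 := l1) (l3 := l2) (m12 := m13) (m13 := m23) (m23 := m12) <;> assumption
      have key : ∀ q ∈ P, q = p ∨ q = p1 ∨ q = p2 ∨ q = p3 := by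
        intro q hq
        by_contra hcon
        push Not at hcon
        obtain ⟨hqp, hq1, hq2, hq3⟩ := hcon
        have hpq : p ≠ q := Ne.symm hqp
        obtain ⟨n1, u1, v1⟩ := hpp q hq p1 hp1 hq1
        obtain ⟨n2, u2, v2⟩ := hpp q hq p2 hp2 hq2
        obtain ⟨n3, u3, v3⟩ := hpp q hq p3 hp3 hq3
        have N1 : n1 ∉ P := L hp1 v1
        have N2 : n2 ∉ P := L hp2 v2
        have N3 : n3 ∉ P := L hp3 v3
        have f1 : ¬ G.Adj q l1 := fun hq1' => by
          apply hK
          apply caseB2 (P := P) (p := p) (q := q) (p1 := p1) (p2 := p2) (p3 := p3)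
            (l1 := l1) (l2 := l2) (l3 := l3) (m12 := m12) (m13 := m13) (n2 := n2) (n3 := n3)
            <;> assumption
        have f2 : ¬ G.Adj q l2 := fun hq1' => by
          apply hK
          apply caseB2 (P := P) (p := p) (q := q) (p1 := p2) (p2 := p1) (p3 := p3)
            (l1 := l2) (l2 := l1) (l3 := l3) (m12 := m12) (m13 := m23) (n2 := n1) (n3 := n3)
            <;> assumption
        have f3 : ¬ G.Adj q l3 := fun hq1' => by
          apply hK
          apply caseB2 (P := P) (p := p) (q := q) (p1 := p3) (p2 := p1) (p3 := p2)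
            (l1 := l3) (l2 := l1) (l3 := l2) (m12 := m13) (m13 := m23) (n2 := n1) (n3 := n2)
            <;> assumption
        obtain ⟨l4, hl4, u4⟩ := hT.2 q hq
        have L4 : l4 ∉ P := L hq u4
        have a4 : G.Adj p l4 := hT.1 l4 hl4
        have k1 : ¬ G.Adj p1 l4 := fun h => f1 ((q1 l4 hl4 h) ▸ u4)
        have k2 : ¬ G.Adj p2 l4 := fun h => f2 ((q2 l4 hl4 h) ▸ u4)
        have k3 : ¬ G.Adj p3 l4 := fun h => f3 ((q3 l4 hl4 h) ▸ u4)
        by_cases g12 : G.Adj q m12
        · by_cases g13 : G.Adj q m13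
          · apply hK
            apply caseB3c (P := P) (p := p) (q := q) (p1 := p1) (p2 := p2) (p3 := p3)
              (l1 := l1) (l4 := l4) (m12 := m12) (m13 := m13) (m23 := m23) <;> assumption
          · by_cases g23 : G.Adj q m23
            · apply hK
              apply caseB3c (P := P) (p := p) (q := q) (p1 := p2) (p2 := p1) (p3 := p3)
                (l1 := l2) (l4 := l4) (m12 := m12) (m13 := m23) (m23 := m13) <;> assumption
            · have z1 : n3 ≠ m13 := by rintro rfl; exact g13 u3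
              have z2 : n3 ≠ m23 := by rintro rfl; exact g23 u3
              apply hK
              apply caseB3b (P := P) (p := p) (q := q) (p1 := p1) (p2 := p2) (p3 := p3)
                (l4 := l4) (m12 := m12) (m13 := m13) (m23 := m23) (n3 := n3) <;> assumption
        · by_cases g13 : G.Adj q m13
          · by_cases g23 : G.Adj q m23
            · apply hK
              apply caseB3c (P := P) (p := p) (q := q) (p1 := p3) (p2 := p1) (p3 := p2)
                (l1 := l3) (l4 := l4) (m12 := m13) (m13 := m23) (m23 := m12) <;> assumption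
            · have z1 : n2 ≠ m12 := by rintro rfl; exact g12 u2
              have z2 : n2 ≠ m23 := by rintro rfl; exact g23 u2
              apply hK
              apply caseB3b (P := P) (p := p) (q := q) (p1 := p1) (p2 := p3) (p3 := p2)
                (l4 := l4) (m12 := m13) (m13 := m12) (m23 := m23) (n3 := n2) <;> assumption
          · by_cases g23 : G.Adj q m23
            · have z1 : n1 ≠ m12 := by rintro rfl; exact g12 u1
              have z2 : n1 ≠ m13 := by rintro rfl; exact g13 u1
              apply hK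
              apply caseB3b (P := P) (p := p) (q := q) (p1 := p2) (p2 := p3) (p3 := p1)
                (l4 := l4) (m12 := m23) (m13 := m12) (m23 := m13) (n3 := n1) <;> assumption
            · have z1 : n1 ≠ m12 := by rintro rfl; exact g12 u1
              have z1' : n1 ≠ m13 := by rintro rfl; exact g13 u1
              have z1'' : n1 ≠ m23 := by rintro rfl; exact g23 u1
              have z2 : n2 ≠ m12 := by rintro rfl; exact g12 u2
              have z2' : n2 ≠ m13 := by rintro rfl; exact g13 u2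
              have z2'' : n2 ≠ m23 := by rintro rfl; exact g23 u2
              apply hK
              apply caseB3a (P := P) (p := p) (q := q) (p1 := p1) (p2 := p2) (p3 := p3)
                (l4 := l4) (m12 := m12) (m13 := m13) (m23 := m23) (n1 := n1) (n2 := n2)
                <;> assumption
      refine ⟨m12, l3, M12, L3, fun u hu => ?_⟩
      rcases key u hu with rfl | rfl | rfl | rfl
      · right; exact a3
      · left; exact r12
      · left; exact s12
      · right; exact b3
  · obtain ⟨l, hl, hpl⟩ := hT.2 p hp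
    have hne : T.card ≠ 0 := Finset.card_ne_zero_of_mem hl
    have : T.card = 1 ∨ T.card = 2 := by omega
    rcases this with h | h
    · obtain ⟨a, rfl⟩ := Finset.card_eq_one.mp h
      have ha : G.Adj p a := hT.1 a (by simp)
      refine ⟨a, a, L hp ha, L hp ha, fun u hu => ?_⟩
      obtain ⟨l', hl', hul'⟩ := hT.2 u hu
      have : l' = a := by simpa using hl'
      left; rw [← this]; exact hul'
    · obtain ⟨a, b, hab, rfl⟩ := Finset.card_eq_two.mp h
      have ha : G.Adj p a := hT.1 a (by simp)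
      have hb : G.Adj p b := hT.1 b (by simp)
      refine ⟨a, b, L hp ha, L hp hb, fun u hu => ?_⟩
      obtain ⟨l', hl', hul'⟩ := hT.2 u hu
      have : l' = a ∨ l' = b := by simpa using hl'
      rcases this with e | e
      · left; rw [← e]; exact hul'
      · right; rw [← e]; exact hul'

end Pool.Agent.H4.TD
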